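import Pool.Agent.Helper2.EC_C.Goals

/-!
# MP_ecc237_nt (S18871), PART C, packet BX: `b(x(y)) = -(√3/(2π)) n1(y)`
-/

set_option autoImplicit false

open MeasureTheory Filter Topology Set

namespace ECC.PkBX

open EC237 ECC

lemma xx_pos (y : ℝ) : 0 < xx y := Real.exp_pos _

lemma xx_sq (sg_ : G_SG) {y : ℝ} (hy : 0 < y) : xx y ^ 2 = ww y := by
  rw [← (sg_ y hy).2.2, xx, ← Real.exp_nat_mul]
  congr 1
  push_cast
  ring

lemma rr_cont (rv : G_RV) (rho_ : G_RHO) : Continuous rr := by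
  have h : rr = fun x => rho (x ^ 2) := funext rv
  rw [h]
  exact rho_.2.2.2.1.comp_continuous (by fun_prop) (fun x => by simp only [mem_Ici]; positivity)

lemma bb_deriv (rv : G_RV) (rho_ : G_RHO) (x : ℝ) : HasDerivAt bb (rr x * x) x := by
  have hc : Continuous fun ξ : ℝ => rr ξ * ξ := (rr_cont rv rho_).mul continuous_id
  exact intervalIntegral.integral_hasDerivAt_right (hc.intervalIntegrable _ _)
    (hc.stronglyMeasurableAtFilter _ _) hc.continuousAt

lemma xx_deriv (sg_ : G_SG) {y : ℝ} (hy : 0 < y) :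
    HasDerivAt xx (xx y * (-(2 / Real.pi) * sgp y)) y := by
  have h := ((sg_ y hy).2.1.const_mul (-(2 / Real.pi))).exp
  exact h

lemma comp_deriv (rv : G_RV) (rho_ : G_RHO) (sg_ : G_SG) {y : ℝ} (hy : 0 < y) :
    HasDerivAt (fun y => bb (xx y)) (rr (xx y) * xx y * (xx y * (-(2 / Real.pi) * sgp y))) y :=
  (bb_deriv rv rho_ (xx y)).comp y (xx_deriv sg_ hy)

lemma deriv_eq (rv : G_RV) (wr : G_WR) (sg_ : G_SG) (pos : G_POS) {y : ℝ} (hy : 0 < y) :
    rr (xx y) * xx y * (xx y * (-(2 / Real.pi) * sgp y)) =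
      Real.sqrt 3 * Real.pi ^ 2 / 2 * (AA (Qn y) * CC (Qn y) * DD (Qn y)) := by
  have hB : BB (Qn y) ≠ 0 := (pos y hy).2.1.ne'
  have h1 : rr (xx y) * xx y * (xx y * (-(2 / Real.pi) * sgp y)) =
      -(2 / Real.pi) * sgp y * (rr (xx y) * (xx y ^ 2)) := by ring
  have hs3 : Real.sqrt 3 ≠ 0 := by positivity
  have hs : Real.sqrt 3 ^ 2 = 3 := Real.sq_sqrt (by norm_num)
  have hpi : Real.pi ≠ 0 := Real.pi_ne_zero
  rw [h1, rv (xx y), xx_sq sg_ hy, wr y hy, (sg_ y hy).1, ww]
  field_simp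
  rw [hs]
  ring

lemma ww_tendsto (w_ : G_W) : Tendsto ww atTop (𝓝 0) := by
  obtain ⟨h1, C, hC⟩ := w_
  have hE : Tendsto (fun y : ℝ => Real.exp (-(Real.pi * y))) atTop (𝓝 0) := by
    refine Real.tendsto_exp_neg_atTop_nhds_zero.comp ?_
    exact tendsto_id.const_mul_atTop Real.pi_pos
  have hup : Tendsto (fun y : ℝ => (Real.log 9 - Real.pi * y) + C * Real.exp (-(Real.pi * y)))
      atTop atBot := by
    have h2 : Tendsto (fun y : ℝ => C * Real.exp (-(Real.pi * y))) atTop (𝓝 (C * 0)) :=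
      hE.const_mul C
    have h3 : Tendsto (fun y : ℝ => Real.log 9 - Real.pi * y) atTop atBot := by
      have h4 : Tendsto (fun y : ℝ => Real.pi * y) atTop atTop :=
        tendsto_id.const_mul_atTop Real.pi_pos
      have h5 := tendsto_neg_atTop_atBot.comp h4
      have h6 := tendsto_atBot_add_const_left atTop (Real.log 9) h5
      refine h6.congr (fun y => ?_)
      simp only [Function.comp]
      ring
    exact h3.atBot_add h2
  have hexp := Real.tendsto_exp_atBot.comp hup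
  refine tendsto_of_tendsto_of_tendsto_of_le_of_le' tendsto_const_nhds hexp ?_ ?_
  · filter_upwards [eventually_gt_atTop (0:ℝ)] with y hy
    exact (h1 y hy).1.le
  · filter_upwards [eventually_ge_atTop (1:ℝ)] with y hy
    have hy0 : 0 < y := by linarith
    have h3 := hC y (by linarith)
    have h4 := (abs_le.1 h3).2
    have h5 : Real.log (ww y) ≤ (Real.log 9 - Real.pi * y) + C * Real.exp (-(Real.pi * y)) := by
      linarith
    simp only [Function.comp]
    calc ww y = Real.exp (Real.log (ww y)) := (Real.exp_log (h1 y hy0).1).symm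
      _ ≤ _ := Real.exp_le_exp.2 h5

lemma xx_tendsto (sg_ : G_SG) (w_ : G_W) : Tendsto xx atTop (𝓝 0) := by
  have h := (Real.continuous_sqrt.tendsto 0).comp (ww_tendsto w_)
  rw [Real.sqrt_zero] at h
  refine h.congr' ?_
  filter_upwards [eventually_gt_atTop (0:ℝ)] with y hy
  simp only [Function.comp]
  rw [← xx_sq sg_ hy, Real.sqrt_sq (xx_pos y).le]

lemma n1_tendsto (n1_ : G_N1) : Tendsto n1 atTop (𝓝 0) := by
  obtain ⟨C, hC⟩ := n1_.2 1 one_pos
  have hE : Tendsto (fun y : ℝ => Real.exp (-(Real.pi * y))) atTop (𝓝 0) := by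
    refine Real.tendsto_exp_neg_atTop_nhds_zero.comp ?_
    exact tendsto_id.const_mul_atTop Real.pi_pos
  have h2 : Tendsto (fun y : ℝ => C * Real.exp (-(Real.pi * y))) atTop (𝓝 0) := by
    simpa using hE.const_mul C
  refine squeeze_zero_norm' ?_ h2
  filter_upwards [eventually_ge_atTop (1:ℝ)] with y hy
  rw [Real.norm_eq_abs]
  exact hC y hy

theorem bx (rv : G_RV) (rho_ : G_RHO) (wr : G_WR) (sg_ : G_SG) (n1_ : G_N1) (pos : G_POS)
    (w_ : G_W) : G_BX := by
  intro y hy
  set F : ℝ → ℝ := fun y => bb (xx y) + Real.sqrt 3 / (2 * Real.pi) * n1 y with hF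
  have hd : ∀ z : ℝ, 0 < z → HasDerivAt F 0 z := by
    intro z hz
    have h1 := comp_deriv rv rho_ sg_ hz
    rw [deriv_eq rv wr sg_ pos hz] at h1
    have h2 := (n1_.1 z hz).2.const_mul (Real.sqrt 3 / (2 * Real.pi))
    rw [(n1_.1 z hz).1] at h2
    have h3 := h1.add h2
    have hpi : Real.pi ≠ 0 := Real.pi_ne_zero
    have h4 : Real.sqrt 3 * Real.pi ^ 2 / 2 * (AA (Qn z) * CC (Qn z) * DD (Qn z)) +
        Real.sqrt 3 / (2 * Real.pi) * (-Real.pi ^ 3 * (AA (Qn z) * CC (Qn z) * DD (Qn z))) = 0 := by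
      field_simp
      ring
    rw [h4] at h3
    exact h3
  have hconst : ∀ z : ℝ, y ≤ z → F z = F y := by
    intro z hz
    have hcont : ContinuousOn F (Icc y z) := fun t ht =>
      (hd t (lt_of_lt_of_le hy ht.1)).continuousAt.continuousWithinAt
    exact constant_of_has_deriv_right_zero hcont
      (fun t ht => (hd t (lt_of_lt_of_le hy ht.1)).hasDerivWithinAt) z ⟨hz, le_refl z⟩
  have hlim : Tendsto F atTop (𝓝 0) := by
    have hb : Tendsto (fun y => bb (xx y)) atTop (𝓝 (bb 0)) :=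
      ((bb_deriv rv rho_ 0).continuousAt.tendsto).comp (xx_tendsto sg_ w_)
    have hb0 : bb 0 = 0 := by simp [bb]
    rw [hb0] at hb
    have hn := (n1_tendsto n1_).const_mul (Real.sqrt 3 / (2 * Real.pi))
    have := hb.add hn
    simpa using this
  have hlim2 : Tendsto F atTop (𝓝 (F y)) := by
    refine tendsto_const_nhds.congr' ?_
    filter_upwards [eventually_ge_atTop y] with z hz
    exact (hconst z hz).symm
  have h0 : F y = 0 := tendsto_nhds_unique hlim2 hlim
  have : bb (xx y) + Real.sqrt 3 / (2 * Real.pi) * n1 y = 0 := h0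
  linarith

end ECC.PkBX
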